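import Pool.Agent.Helper14_SN.Stmts

set_option autoImplicit false

/-! Module VAL: values of the constructed networks. -/

namespace Pool.Agent.SN.H2

open Pool.Agent.Helper12_RN Pool.Agent.SN

variable {F : Type} {n : ℕ} {k : Fin n → ℕ}

theorem append_val [CommRing F] : ∀ {t : Tree n} {a b : ℕ} (N : Net F k t a) (N' : Net F k t b)
    (s : PA k), (Net.append N N').val s = Fin.append (N.val s) (N'.val s)
  | .leaf i, _, _, .leaf B, .leaf B', s => by
    funext c
    refine Fin.addCases (fun c => ?_) (fun c => ?_) c
    · rw [Fin.append_left]
      show (match s i with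
        | some u => Fin.append B B' (Fin.castAdd _ c) u
        | none => 0) = (match s i with
        | some u => B c u
        | none => 0)
      rw [Fin.append_left]
    · rw [Fin.append_right]
      show (match s i with
        | some u => Fin.append B B' (Fin.natAdd _ c) u
        | none => 0) = (match s i with
        | some u => B' c u
        | none => 0)
      rw [Fin.append_right]
  | .node l r, _, _, .node M N N', .node M' N1 N1', s => by
    funext c
    refine Fin.addCases (fun c => ?_) (fun c => ?_) c
    · rw [Fin.append_left]
      simp only [Net.append, Net.val, append_val N N1 s, append_val N' N1' s, Fin.sum_univ_add,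
        Fin.append_left, Fin.append_right, zero_mul, Finset.sum_const_zero, add_zero]
    · rw [Fin.append_right]
      simp only [Net.append, Net.val, append_val N N1 s, append_val N' N1' s, Fin.sum_univ_add,
        Fin.append_left, Fin.append_right, zero_mul, Finset.sum_const_zero, zero_add]

theorem lin_val [CommRing F] {v : ℕ} : ∀ {t : Tree n} {w : ℕ} (A : Fin v → Fin w → F)
    (N : Net F k t w) (s : PA k) (c : Fin v), (Net.lin A N).val s c = ∑ d, A c d * N.val s d
  | .leaf i, _, A, .leaf B, s, c => by
    show (match s i with
        | some u => ∑ d, A c d * B d u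
        | none => 0) = ∑ d, A c d * (match s i with
        | some u => B d u
        | none => 0)
    cases s i with
    | some u => rfl
    | none => simp
  | .node l r, _, A, .node M N N', s, c => by
    show ∑ a, ∑ b, (∑ d, A c d * M d a b) * N.val s a * N'.val s b =
      ∑ d, A c d * ∑ a, ∑ b, M d a b * N.val s a * N'.val s b
    simp only [Finset.mul_sum, Finset.sum_mul]
    have h1 : ∀ a, ∑ b, ∑ d, A c d * M d a b * N.val s a * N'.val s b =
        ∑ d, ∑ b, A c d * M d a b * N.val s a * N'.val s b := fun a => Finset.sum_comm
    simp only [h1]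
    rw [Finset.sum_comm]
    refine Finset.sum_congr rfl fun d _ => Finset.sum_congr rfl fun a _ =>
      Finset.sum_congr rfl fun b _ => ?_
    ring

theorem addSmul_val [CommRing F] {t : Tree n} (N : Net F k t 1) (c : F) (N' : Net F k t 1)
    (s : PA k) : (N.addSmul c N').val s 0 = N.val s 0 + c * N'.val s 0 := by
  unfold Net.addSmul
  rw [lin_val, append_val]
  have h2 := Fin.sum_univ_two
    (fun d : Fin 2 => (![1, c] : Fin 2 → F) d * (Fin.append (N.val s) (N'.val s) : Fin 2 → F) d)
  have h3 : (Fin.append (N.val s) (N'.val s) : Fin 2 → F) 0 = N.val s 0 := rfl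
  have h4 : (Fin.append (N.val s) (N'.val s) : Fin 2 → F) 1 = N'.val s 0 := rfl
  rw [h3, h4] at h2
  refine h2.trans ?_
  simp

theorem fix_val [CommRing F] (s₀ : PA k) : ∀ {t : Tree n} {w : ℕ} (N : Net F k t w) (s : PA k),
    s.Total → ∀ c, (N.fix s₀).val s c = N.val (s₀.merge s) c
  | .leaf i, _, .leaf B, s, hs, c => by
    show (match s i with
        | some u => (match s₀ i with
          | some u' => B c u'
          | none => B c u)
        | none => 0) = (match (s₀ i).orElse (fun _ => s i) with
        | some u => B c u
        | none => 0)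
    obtain ⟨u, hu⟩ := Option.isSome_iff_exists.1 (hs i)
    rw [hu]
    cases s₀ i with
    | some u' => rfl
    | none => rfl
  | .node l r, _, .node M N N', s, hs, c => by
    show ∑ a, ∑ b, M c a b * (N.fix s₀).val s a * (N'.fix s₀).val s b =
      ∑ a, ∑ b, M c a b * N.val (s₀.merge s) a * N'.val (s₀.merge s) b
    refine Finset.sum_congr rfl fun a _ => Finset.sum_congr rfl fun b _ => ?_
    rw [fix_val s₀ N s hs a, fix_val s₀ N' s hs b]

theorem foldl_val [CommRing F] {t : Tree n} (N : Net F k t 1) (s : PA k) (hs : s.Total) :
    ∀ (L : List (F × PA k)) (N' : Net F k t 1),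
      (L.foldl (fun N' p => N'.addSmul (-p.1) (N.fix p.2)) N').val s 0 =
        N'.val s 0 - (L.map fun p => p.1 * N.val (p.2.merge s) 0).sum
  | [], N' => by simp
  | p :: L, N' => by
    rw [List.foldl_cons, foldl_val N s hs L, addSmul_val, fix_val p.2 N s hs, List.map_cons,
      List.sum_cons]
    ring

/-- VAL -/
theorem val : ValStmt := by
  intro F _ n k t N ρ s hs
  unfold Net.slice
  rw [foldl_val N s hs, fix_val _ N s hs]

end Pool.Agent.SN.H2
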